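import Pool.Agent.H57.UGB.Defs

/-!
# Block B: functions of the coefficients and the base point
-/

set_option autoImplicit false

open MvPolynomial

namespace Pool.Agent.H57.UGB

/-- `B` contains only the coefficients and the variables `X_{j,0}`. -/
def Base {n k : ℕ} (B : JR n k) : Prop := ∀ v : Fin (n + 2) × Fin (k + 1), Sum.inr v ∈ B.vars → v.2 = 0

end Pool.Agent.H57.UGB
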