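import Pool.Agent.H67.UGB.Base

/-!
# Block B, CLEAR: denominators
-/

set_option autoImplicit false

open MvPolynomial

namespace Pool.Agent.H57.UGB

open Pool.Agent.H47.KB Pool.Agent.H47.UG

/-- The variables allowed in `Base`. -/
def clrV (n k : ℕ) : Set (Vr n k) := {v | ∀ w : Fin (n + 2) × Fin (k + 1), v = Sum.inr w → w.2 = 0}

theorem base_iff {n k : ℕ} (B : JR n k) : Base B ↔ B ∈ supported ℂ (clrV n k) := by
  rw [mem_supported]
  constructor
  · intro h v hv w hw
    subst hw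
    exact h w hv
  · intro h w hw
    exact h hw w rfl

section ff

variable {n d : ℕ} (T : FF d (genK n d)) (k : ℕ)

theorem clr_zk_inl (c : Cof n) : zk T k (rename Sum.inl c) =
    C (algebraMap (KK n) T.L (algebraMap (Cof n) (KK n) c)) := by
  unfold zk pt
  rw [aeval_rename]
  induction c using MvPolynomial.induction_on with
  | C a =>
    rw [algHom_C]
    rfl
  | add p q hp hq => rw [map_add, hp, hq, map_add, map_add, map_add]
  | mul_X p i hp =>
    rw [map_mul, hp, aeval_X, map_mul, map_mul, map_mul]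
    rfl

theorem clr_zk_inr (v : Fin (n + 2) × Fin (k + 1)) : zk T k (X (Sum.inr v)) =
    PowerSeries.coeff (v.2 : ℕ) (ser T k (T.x v.1)) := by
  unfold zk pt
  rw [aeval_X]
  rfl

theorem clr_ser_zero (v : T.L) : PowerSeries.coeff 0 (ser T k v) = C v := by
  unfold ser
  rw [PowerSeries.coeff_mk]
  simp only [Nat.factorial_zero, Nat.cast_one, inv_one, map_one, one_mul, Function.iterate_zero, id_eq]
  rw [rk, algHom_C]
  rfl

theorem clr_D_iter (s : ℕ) (l : Fin n) : (T.D : T.BB → T.BB)^[s] (X (0, l)) = X (s, l) := by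
  induction s with
  | zero => rfl
  | succ s ih => rw [Function.iterate_succ_apply', ih, T.D_X]

theorem clr_ser_x (l : Fin n) (s : ℕ) (hs : s < k) :
    PowerSeries.coeff (s + 1) (ser T k (T.x l.succ.castSucc)) =
      C (algebraMap (KK n) T.L (((s + 1).factorial : KK n)⁻¹)) * X (⟨s, hs⟩, l) := by
  unfold ser
  rw [PowerSeries.coeff_mk, Function.iterate_succ_apply, T.D_C]
  have h1 : T.δ 0 (T.x l.succ.castSucc) = X (0, l) := by
    unfold FF.δ
    rw [Finset.sum_eq_single l]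
    · rw [T.par_x, if_pos rfl, C_1, one_mul]
    · intro j _ hj
      rw [T.par_x, if_neg hj, C_0, zero_mul]
    · intro h
      exact absurd (Finset.mem_univ l) h
  rw [h1, clr_D_iter]
  congr 1
  unfold rk
  rw [aeval_X]
  exact dif_pos hs

theorem clr_zk_c_ne {c : Cof n} (hc : c ≠ 0) : zk T k (rename Sum.inl c) ≠ 0 := by
  rw [clr_zk_inl, Ne, C_eq_zero]
  intro h
  have h1 := (algebraMap (KK n) T.L).injective (h.trans (map_zero _).symm)
  exact hc (IsFractionRing.injective (Cof n) (KK n) (h1.trans (map_zero _).symm))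

theorem clr_base_inl (c : Cof n) : (rename Sum.inl c : JR n k) ∈ supported ℂ (clrV n k) := by
  rw [mem_supported]
  intro v hv w hw
  have h1 := vars_rename Sum.inl c hv
  rw [Finset.mem_image] at h1
  obtain ⟨α, _, hα⟩ := h1
  rw [hw] at hα
  exact absurd hα Sum.inl_ne_inr

theorem clr_base_inr (j : Fin (n + 2)) :
    (X (Sum.inr (j, 0)) : JR n k) ∈ supported ℂ (clrV n k) := by
  refine X_mem_supported.2 ?_
  intro w hw
  rw [← Sum.inr.inj hw]

/-- clearing denominators in the coefficients -/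
theorem clr_poly (P : MvPolynomial (Fin (n + 2)) (KK n)) : ∃ c : Cof n, c ≠ 0 ∧
    ∃ A : JR n k, A ∈ supported ℂ (clrV n k) ∧
      zk T k A = zk T k (rename Sum.inl c) * C (aeval T.x P) := by
  induction P using MvPolynomial.induction_on with
  | C a =>
    obtain ⟨r, s, hs, hrs⟩ := IsFractionRing.div_surjective (A := Cof n) a
    have hs0 : s ≠ 0 := nonZeroDivisors.ne_zero hs
    refine ⟨s, hs0, rename Sum.inl r, clr_base_inl k r, ?_⟩
    rw [clr_zk_inl, clr_zk_inl, algHom_C, ← C_mul, ← map_mul, ← hrs]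
    congr 2
    have h2 : algebraMap (Cof n) (KK n) s ≠ 0 := fun h =>
      hs0 (IsFractionRing.injective (Cof n) (KK n) (h.trans (map_zero _).symm))
    rw [mul_div_cancel₀ _ h2]
  | add p q hp hq =>
    obtain ⟨c, hc, A, hA, h1⟩ := hp
    obtain ⟨c', hc', A', hA', h2⟩ := hq
    refine ⟨c * c', mul_ne_zero hc hc', rename Sum.inl c' * A + rename Sum.inl c * A',
      add_mem (mul_mem (clr_base_inl k _) hA) (mul_mem (clr_base_inl k _) hA'), ?_⟩
    rw [map_add, map_mul, map_mul, h1, h2, map_mul, map_mul, map_add, map_add]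
    ring
  | mul_X p i hp =>
    obtain ⟨c, hc, A, hA, h1⟩ := hp
    refine ⟨c, hc, A * X (Sum.inr (i, 0)), mul_mem hA (clr_base_inr k i), ?_⟩
    rw [map_mul, h1, clr_zk_inr, map_mul, aeval_X, C_mul]
    have h3 : PowerSeries.coeff (((i, 0) : Fin (n + 2) × Fin (k + 1)).2 : ℕ)
        (ser T k (T.x ((i, 0) : Fin (n + 2) × Fin (k + 1)).1)) = C (T.x i) := clr_ser_zero T k (T.x i)
    rw [h3]
    ring

/-- every function on the fibre is a quotient -/
theorem clr_quot (g : Bk T k) : ∃ B : JR n k, B ∈ supported ℂ (clrV n k) ∧ zk T k B ≠ 0 ∧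
    ∃ A : JR n k, zk T k A = zk T k B * g := by
  induction g using MvPolynomial.induction_on with
  | C u =>
    obtain ⟨s, P, Q, _, _, hQ, hu⟩ := T.gen u
    obtain ⟨c, hc, A, hA, h1⟩ := clr_poly T k P
    obtain ⟨c', hc', A', hA', h2⟩ := clr_poly T k Q
    refine ⟨rename Sum.inl c * A', mul_mem (clr_base_inl k _) hA', ?_, rename Sum.inl c' * A, ?_⟩
    · rw [map_mul, h2]
      refine mul_ne_zero (clr_zk_c_ne T k hc) (mul_ne_zero (clr_zk_c_ne T k hc') ?_)
      rw [Ne, C_eq_zero]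
      exact hQ
    · rw [map_mul, map_mul, h1, h2, hu]
      have h3 : (C (aeval T.x P) : Bk T k) = C (aeval T.x Q) * C (aeval T.x P / aeval T.x Q) := by
        rw [← C_mul, mul_div_cancel₀ _ hQ]
      rw [h3]
      ring
  | add p q hp hq =>
    obtain ⟨B, hB, hB0, A, h1⟩ := hp
    obtain ⟨B', hB', hB0', A', h2⟩ := hq
    refine ⟨B * B', mul_mem hB hB', by rw [map_mul]; exact mul_ne_zero hB0 hB0', B' * A + B * A', ?_⟩
    rw [map_add, map_mul, map_mul, h1, h2, map_mul]
    ring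
  | mul_X p i hp =>
    obtain ⟨B, hB, hB0, A, h1⟩ := hp
    obtain ⟨⟨s, hs⟩, l⟩ := i
    refine ⟨B, hB, hB0, A * (C ((s + 1).factorial : ℂ) * X (Sum.inr (l.succ.castSucc, ⟨s + 1, by omega⟩))), ?_⟩
    rw [map_mul, map_mul, h1, clr_zk_inr]
    have h3 : PowerSeries.coeff (((l.succ.castSucc, ⟨s + 1, by omega⟩) : Fin (n + 2) × Fin (k + 1)).2 : ℕ)
        (ser T k (T.x ((l.succ.castSucc, ⟨s + 1, by omega⟩) : Fin (n + 2) × Fin (k + 1)).1)) =
        C (algebraMap (KK n) T.L (((s + 1).factorial : KK n)⁻¹)) * X (⟨s, hs⟩, l) := clr_ser_x T k l s hs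
    have h4 : zk T k (C ((s + 1).factorial : ℂ)) = C (algebraMap (KK n) T.L ((s + 1).factorial : KK n)) := by
      rw [map_natCast, map_natCast, map_natCast, map_natCast]
    have h5 : (C (algebraMap (KK n) T.L ((s + 1).factorial : KK n)) : Bk T k) *
        C (algebraMap (KK n) T.L (((s + 1).factorial : KK n)⁻¹)) = 1 := by
      rw [← C_mul, ← map_mul, mul_inv_cancel₀ (by exact_mod_cast (Nat.factorial_ne_zero (s + 1))), map_one, C_1]
    rw [h3, h4]
    linear_combination (zk T k B * p * X (⟨s, hs⟩, l)) * h5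

/-- every element of the ideal generated by the image is a quotient -/
theorem clr_ideal (S : Set (JR n k)) (x : Bk T k) (hx : x ∈ Ideal.span (zk T k '' S)) :
    ∃ B : JR n k, B ∈ supported ℂ (clrV n k) ∧ zk T k B ≠ 0 ∧
      ∃ E ∈ Ideal.span S, zk T k E = zk T k B * x := by
  induction hx using Submodule.span_induction with
  | mem x hx =>
    obtain ⟨s, hs, rfl⟩ := hx
    exact ⟨1, one_mem _, by rw [map_one]; exact one_ne_zero, s, Ideal.subset_span hs, by rw [map_one, one_mul]⟩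
  | zero => exact ⟨1, one_mem _, by rw [map_one]; exact one_ne_zero, 0, zero_mem _, by rw [map_zero, mul_zero]⟩
  | add x y _ _ hx hy =>
    obtain ⟨B, hB, hB0, E, hE, h1⟩ := hx
    obtain ⟨B', hB', hB0', E', hE', h2⟩ := hy
    refine ⟨B * B', mul_mem hB hB', by rw [map_mul]; exact mul_ne_zero hB0 hB0', B' * E + B * E',
      add_mem (Ideal.mul_mem_left _ _ hE) (Ideal.mul_mem_left _ _ hE'), ?_⟩
    rw [map_add, map_mul, map_mul, h1, h2, map_mul]
    ring
  | smul g x _ hx =>
    obtain ⟨B, hB, hB0, E, hE, h1⟩ := hx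
    obtain ⟨B', hB', hB0', A, h2⟩ := clr_quot T k g
    refine ⟨B' * B, mul_mem hB' hB, by rw [map_mul]; exact mul_ne_zero hB0' hB0, A * E,
      Ideal.mul_mem_left _ _ hE, ?_⟩
    rw [map_mul, map_mul, h1, h2, smul_eq_mul]
    ring

theorem clear (hk : 1 ≤ k) (S : Set (JR n k)) (l : Fin n) (N : ℕ)
    (h : (X (⟨0, hk⟩, l) : Bk T k) ^ N ∈ Ideal.span (zk T k '' S)) :
    ∃ B : JR n k, Base B ∧ zk T k B ≠ 0 ∧ ∃ E ∈ Ideal.span S,
      zk T k (B * PowerSeries.coeff 1 (uy n k l.succ.castSucc) ^ N - E) = 0 := by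
  obtain ⟨B, hB, hB0, E, hE, h1⟩ := clr_ideal T k S _ h
  refine ⟨B, (base_iff B).2 hB, hB0, E, hE, ?_⟩
  have h2 : PowerSeries.coeff 1 (uy n k l.succ.castSucc) = X (Sum.inr (l.succ.castSucc, ⟨1, by omega⟩)) := by
    unfold uy
    rw [PowerSeries.coeff_mk]
    exact dif_pos (by omega)
  have h3 : PowerSeries.coeff (((l.succ.castSucc, ⟨1, by omega⟩) : Fin (n + 2) × Fin (k + 1)).2 : ℕ)
      (ser T k (T.x ((l.succ.castSucc, ⟨1, by omega⟩) : Fin (n + 2) × Fin (k + 1)).1)) =
      C (algebraMap (KK n) T.L (((0 + 1).factorial : KK n)⁻¹)) * X (⟨0, hk⟩, l) := clr_ser_x T k l 0 hk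
  rw [map_sub, map_mul, map_pow, h2, clr_zk_inr, h3, h1]
  simp

end ff

end Pool.Agent.H57.UGB
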